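import Pool.Agent.FIB.Main
import Pool.Agent.FIB.ZHedge

/-!
# Farb's question: no finitely generated group is quasi-isometric to `ℝ² ⋊ SL₂(ℝ)`

`Hedge.G` is the group of pairs `(v, A)`, `v ∈ ℝ²`, `A ∈ SL₂(ℝ)`, with
`(v, A) (w, B) = (v + A w, A B)` and the topology of `ℝ² × SL₂(ℝ)`.

`Hedge.GeodAdapted d` says that `d` is a left invariant pseudo-metric on `G` whose balls are relatively
compact, for which compact sets are bounded, and which is geodesic on a large scale: any `x`, `y` are
joined by a chain of at most `C * d x y + C` steps of length at most `C`. Left invariant Riemannian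
metrics and word metrics of compact generating sets are of this kind.

`Hedge.wl S g` is the word length of `g` for `S`.
-/

set_option autoImplicit false

namespace Pool.Agent.Results.MP_84ef61_al.NoGroup

open Pool.Agent.FIB Pool.Agent.FIB.Hedge

universe u

/-- Let `Γ` be any group with a finite generating set `S` and `d` any left invariant proper large
scale geodesic pseudo-metric on `G = ℝ² ⋊ SL₂(ℝ)`. There is no quasi-isometry `f : Γ → (G, d)`. -/
theorem result {Γ : Type u} [Group Γ] (S : Finset Γ) (hS : Subgroup.closure (S : Set Γ) = ⊤)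
    (d : G → G → ℝ) (hd : GeodAdapted d) :
    ¬ ∃ (f : Γ → G) (lam c : ℝ), 1 ≤ lam ∧ 0 ≤ c ∧
      (∀ a b, lam⁻¹ * wl S (a⁻¹ * b) - c ≤ d (f a) (f b) ∧
        d (f a) (f b) ≤ lam * wl S (a⁻¹ * b) + c) ∧
      ∀ y, ∃ a, d (f a) y ≤ c :=
  noQI_of_StF stF S hS d hd

end Pool.Agent.Results.MP_84ef61_al.NoGroup
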